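import Pool.Agent.Q114.RS.Basic

/-!
The Scherk-type inequality for restricted sumsets in abelian groups of exponent three.

Proof. We may assume that `G` is finite. Let `S` be the restricted sumset and `D` the set of all `d`
with `-d ∉ S`. Then `a + b + d = 0` with `a ∈ A`, `b ∈ B`, `d ∈ D` only for `a = b = d`, a condition
symmetric in the three sets. Let `T` be the intersection of the three sets (`0 ∈ T`), `U` the set of
the points in at least two of them and `W` the union. For `t ∈ T`, `x ∈ U`, `x ≠ t` the point
`- x - t` is not in `W`. So the complement of `W` is at least as large as the restricted sumset of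
`U` and `T`, and counting shows that the inequality for `(U, T)` implies that for `(A, B)`. Now
`u + u' + t = 0` with `u, u' ∈ U`, `t ∈ T` only for `u = u' = t`. If `T` has at most two elements
the inequality is trivial. Otherwise a homomorphism onto `ℤ/3` takes all three values on `T`. Let
`U_i`, `T_i` be the parts. The sets `U_i + T_{i+1}` lie in different classes and in the restricted
sumset, and each of them has at least `|U_i| + |T_{i+1}| - 1` elements by Kneser's theorem, as `U`
contains at most `(|K| + 1)/2` elements of every coset `t + K` of a subgroup `K`, `t ∈ T`.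
-/

set_option autoImplicit false

namespace Pool.Agent.Results.MP_59976d_co.ExponentThree

open Finset Pool.Agent.Q114.RS

/-- Let `G` be an abelian group with `3 x = 0` for all `x`, and let `A`, `B` be finite subsets with
`A ∩ (-B) = {0}`. Then the restricted sumset (all `a + b` with `a ∈ A`, `b ∈ B`, `a ≠ b`) has at
least `|A| + |B| - 3` elements. -/
theorem result (G : Type) [AddCommGroup G] [DecidableEq G] (h3 : ∀ x : G, 3 • x = 0)
    (A B : Finset G) (hadm : A ∩ B.image (fun x => -x) = {0}) :
    A.card + B.card ≤ (rsum A B).card + 3 := by
  refine main (fun x => ?_) fun x => ?_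
  · have := h3 x
    rwa [succ_nsmul, two_nsmul] at this
  · have hx : x ∈ A ∩ B.image (fun x => -x) ↔ x ∈ ({0} : Finset G) := by rw [hadm]
    rw [mem_inter, mem_singleton, mem_image] at hx
    rw [← hx]
    constructor
    · rintro ⟨h1, h2⟩
      exact ⟨h1, -x, h2, neg_neg x⟩
    · rintro ⟨h1, y, h2, rfl⟩
      exact ⟨h1, by rwa [neg_neg]⟩

end Pool.Agent.Results.MP_59976d_co.ExponentThree
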